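import Mathlib
import Pool.Agent.RelEq624.Defs
import Pool.Agent.RelEq624.Dynamics
import Pool.Agent.RelEq624.Reduced
import Pool.Agent.RelEq624.Concentration

set_option autoImplicit false

namespace Pool.Agent.Results.MP_4948b4_mp.MassConcentration

open Pool.Agent.RelEq624

/-- **Mass concentration in linearly stable relative equilibria.**
1. For every linearly stable relative equilibrium of `n ≥ 2` bodies with total mass `M`: for every
   `μ > 0` the number `k` of bodies of mass at least `μ` satisfies `μ² k⁹ ≤ 9000 n⁶ M²`, and some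
   body has mass at least `M / (4 n^{6/7})`.
2. If all mass ratios are at most `R` and `n > 9000 R²`, no relative equilibrium is linearly stable.
3. If `n ≥ 18` and `m_j³ < 1.005 m_k³` for all `j, k` (in particular for equal masses), no relative
   equilibrium is linearly stable. -/
theorem result :
    (∀ n : ℕ, 2 ≤ n → ∀ m : Fin n → ℝ, (∀ j, 0 < m j) → ∀ (ω : ℝ) (q : Fin n → ℂ),
      IsRelEq m ω q → LinearlyStable m ω q →
        (∀ μ : ℝ, 0 < μ → μ ^ 2 * ((Finset.univ.filter fun j => μ ≤ m j).card : ℝ) ^ 9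
          ≤ 9000 * (n : ℝ) ^ 6 * (∑ j, m j) ^ 2) ∧
        (∃ j, ∑ k, m k ≤ 4 * (n : ℝ) ^ (6 / 7 : ℝ) * m j)) ∧
    (∀ n : ℕ, 2 ≤ n → ∀ m : Fin n → ℝ, (∀ j, 0 < m j) → ∀ R : ℝ, (∀ j k, m j ≤ R * m k) →
      9000 * R ^ 2 < n → ∀ (ω : ℝ) (q : Fin n → ℂ), IsRelEq m ω q → ¬ LinearlyStable m ω q) ∧
    (∀ n : ℕ, 18 ≤ n → ∀ m : Fin n → ℝ, (∀ j, 0 < m j) →
      (∀ j k, m j ^ 3 < 201 / 200 * m k ^ 3) →
      ∀ (ω : ℝ) (q : Fin n → ℂ), IsRelEq m ω q → ¬ LinearlyStable m ω q) := by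
  refine ⟨fun n hn m hm ω q h hl => ⟨fun μ hμ => ?_, ?_⟩, fun n hn m hm R hR hnR ω q h hl => ?_,
    fun n hn m hm hr ω q h hl =>
      main hn hm hr h (spectrallyStable_of_linearlyStable (by omega) h hl)⟩
  · exact card_ineq hn hm h (spectrallyStable_of_linearlyStable hn h hl) hμ
  · have hne : Nonempty (Fin n) := ⟨⟨0, by omega⟩⟩
    obtain ⟨jb, -, hjb⟩ := Finset.exists_max_image Finset.univ m Finset.univ_nonempty
    refine ⟨jb, ?_⟩
    have h1 := max_ineq hn hm h (spectrallyStable_of_linearlyStable hn h hl)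
      (b := m jb) (fun j => hjb j (Finset.mem_univ j))
    have hb : 0 < m jb := hm jb
    have hn0 : (0 : ℝ) < n := by exact_mod_cast (by omega : 0 < n)
    have h2 : ((n : ℝ) ^ (6 / 7 : ℝ)) ^ 7 = (n : ℝ) ^ 6 := by
      rw [← Real.rpow_natCast, ← Real.rpow_mul hn0.le, ← Real.rpow_natCast]
      norm_num
    have h3 : (∑ j, m j) ^ 7 ≤ (4 * (n : ℝ) ^ (6 / 7 : ℝ) * m jb) ^ 7 := by
      rw [mul_pow, mul_pow, h2]
      refine h1.trans ?_
      have h4 : 0 ≤ (n : ℝ) ^ 6 * m jb ^ 7 := by positivity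
      nlinarith
    exact le_of_pow_le_pow_left₀ (by norm_num) (by positivity) h3
  · -- all masses are at least `M / (n R)`
    have hn0 : (0 : ℝ) < n := by exact_mod_cast (by omega : 0 < n)
    have hne : Nonempty (Fin n) := ⟨⟨0, by omega⟩⟩
    obtain ⟨ja, -, hja⟩ := Finset.exists_min_image Finset.univ m Finset.univ_nonempty
    have ha : 0 < m ja := hm ja
    have h1 := card_ineq hn hm h (spectrallyStable_of_linearlyStable hn h hl) ha
    have h2 : (Finset.univ.filter fun j => m ja ≤ m j) = Finset.univ :=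
      Finset.filter_true_of_mem fun j hj => hja j hj
    rw [h2, Finset.card_univ, Fintype.card_fin] at h1
    have h3 : ∑ j, m j ≤ n * (R * m ja) := by
      calc ∑ j, m j ≤ ∑ _j : Fin n, R * m ja := Finset.sum_le_sum fun j _ => hR j ja
        _ = n * (R * m ja) := by simp
    have hM0 : 0 ≤ ∑ j, m j := Finset.sum_nonneg fun j _ => (hm j).le
    have h4 : (∑ j, m j) ^ 2 ≤ (n * (R * m ja)) ^ 2 := pow_le_pow_left₀ hM0 h3 2
    have h5 : m ja ^ 2 * (n : ℝ) ^ 9 ≤ 9000 * (n : ℝ) ^ 6 * (n * (R * m ja)) ^ 2 :=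
      h1.trans (mul_le_mul_of_nonneg_left h4 (by positivity))
    have h6 : (m ja ^ 2 * (n : ℝ) ^ 8) * (n : ℝ) ≤ (m ja ^ 2 * (n : ℝ) ^ 8) * (9000 * R ^ 2) := by
      calc (m ja ^ 2 * (n : ℝ) ^ 8) * (n : ℝ) = m ja ^ 2 * (n : ℝ) ^ 9 := by ring
        _ ≤ 9000 * (n : ℝ) ^ 6 * (n * (R * m ja)) ^ 2 := h5
        _ = _ := by ring
    have h7 := le_of_mul_le_mul_left h6 (by positivity)
    linarith

end Pool.Agent.Results.MP_4948b4_mp.MassConcentration
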